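import Pool.Agent.H0.L1opt.Main

set_option autoImplicit false

namespace Pool.Agent.Results.MP_c74d57_an.NoRationalOptimum
open Pool.Agent.L1opt

/-- There is a multi-block instance of the `ℓ₁` model matching problem with rational `H, U, V` in
`ℓ₁` which has an optimal solution in `ℓ₁`, but none of whose optimal solutions is rational. -/
theorem result : ∃ (nz nw nu ny : ℕ) (_ : 1 ≤ nz) (_ : 1 ≤ nw) (_ : 1 ≤ nu) (_ : 1 ≤ ny)
    (H : MSeq nz nw) (U : MSeq nz nu) (V : MSeq ny nw),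
    IsL1 H ∧ IsL1 U ∧ IsL1 V ∧ IsRat H ∧ IsRat U ∧ IsRat V ∧ ¬ (FullRow U ∧ FullCol V) ∧
    (∃ Q : MSeq nu ny, IsOptimal H U V Q) ∧
    ∀ Q : MSeq nu ny, IsOptimal H U V Q → ¬ IsRat Q :=
  ⟨1, 3, 1, 1, le_rfl, by norm_num, le_rfl, le_rfl, HH, UU, VV, H_l1, U_l1, V_l1, H_rat, U_rat,
    V_rat, multi, ⟨QQ, optimal⟩, not_rat⟩

end Pool.Agent.Results.MP_c74d57_an.NoRationalOptimum
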